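import Pool.Agent.H996Z.Nuc.Davie

/-! Nuclear operators attaining their nuclear norm are not always dense. -/

namespace Pool.Agent.Results.MP_91e127_an.ANotDense

open Pool.Agent.H996Z.Nuc

theorem result : ∃ (X Y : Type) (_ : NormedAddCommGroup X) (_ : NormedSpace ℝ X)
    (_ : CompleteSpace X) (_ : NormedAddCommGroup Y) (_ : NormedSpace ℝ Y) (_ : CompleteSpace Y),
    ∃ T : X →L[ℝ] Y, IsNuclear T ∧ ∃ δ : ℝ, 0 < δ ∧
      ∀ S : X →L[ℝ] Y, AttainsNuc S → δ ≤ nucNorm (T - S) :=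
  main

end Pool.Agent.Results.MP_91e127_an.ANotDense
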